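import Mathlib

/-!
# Growth of powers from the roots of an annihilating real polynomial
-/

set_option autoImplicit false

namespace Pool.Agent.TH738.PX

open Filter Topology

/-- the shift of complex sequences -/
def shf : (ℕ → ℂ) →ₗ[ℂ] (ℕ → ℂ) where
  toFun u := fun n => u (n + 1)
  map_add' _ _ := rfl
  map_smul' _ _ := rfl

theorem shf_pow (k : ℕ) : ∀ (u : ℕ → ℂ) (n : ℕ), (shf ^ k) u n = u (n + k) := by
  induction k with
  | zero => intro u n; simp
  | succ k ih =>
    intro u n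
    rw [pow_succ, Module.End.mul_apply, ih]
    show u (n + k + 1) = u (n + (k + 1))
    rfl

/-- a sequence killed by a product of linear factors in the shift grows slowly -/
theorem seq_bound (r : ℝ) (hr : 0 < r) (s : Multiset ℂ) : (∀ μ ∈ s, ‖μ‖ < r) → ∀ u : ℕ → ℂ,
    (Polynomial.aeval shf (s.map (fun μ => Polynomial.X - Polynomial.C μ)).prod) u = 0 →
    ∃ C : ℝ, ∀ n : ℕ, ‖u n‖ ≤ C * r ^ n := by
  induction s using Multiset.induction_on with
  | empty =>
    intro _ u hu
    refine ⟨0, fun n => ?_⟩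
    have h0 : u = 0 := by simpa using hu
    simp [h0]
  | cons μ s ih =>
    intro hs u hu
    have hμ := hs μ (Multiset.mem_cons_self _ _)
    obtain ⟨C', hC'⟩ := ih (fun ν hν => hs ν (Multiset.mem_cons_of_mem hν)) (shf u - μ • u) (by
      rw [Multiset.map_cons, Multiset.prod_cons, mul_comm, map_mul, Module.End.mul_apply] at hu
      rw [← hu]
      congr 1
      simp [Algebra.algebraMap_eq_smul_one])
    have hd : 0 < r - ‖μ‖ := by linarith
    refine ⟨max ‖u 0‖ (C' / (r - ‖μ‖)), fun n => ?_⟩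
    induction n with
    | zero => simp
    | succ n ihn =>
      have e : u (n + 1) = μ * u n + (shf u - μ • u) n := by
        simp [shf]
      have h1 := hC' n
      have h2 : C' ≤ max ‖u 0‖ (C' / (r - ‖μ‖)) * (r - ‖μ‖) := by
        rw [← div_le_iff₀ hd]
        exact le_max_right _ _
      have h3 : 0 < r ^ n := pow_pos hr n
      have h4 := norm_nonneg μ
      calc ‖u (n + 1)‖ ≤ ‖μ * u n‖ + ‖(shf u - μ • u) n‖ := by
            rw [e]; exact norm_add_le _ _
        _ ≤ ‖μ‖ * (max ‖u 0‖ (C' / (r - ‖μ‖)) * r ^ n) + C' * r ^ n := by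
            rw [norm_mul]
            gcongr
        _ ≤ ‖μ‖ * (max ‖u 0‖ (C' / (r - ‖μ‖)) * r ^ n) +
              (max ‖u 0‖ (C' / (r - ‖μ‖)) * (r - ‖μ‖)) * r ^ n := by
            gcongr
        _ = max ‖u 0‖ (C' / (r - ‖μ‖)) * r ^ (n + 1) := by ring

/-- the coordinates of the powers of `A` form a linear recurrence -/
theorem aeval_shf {R : Type} [Ring R] [Algebra ℝ R] (A : R) (φ : R →ₗ[ℝ] ℝ)
    (p : Polynomial ℝ) : ∀ n : ℕ,
    (Polynomial.aeval shf (p.map (algebraMap ℝ ℂ))) (fun n => ((φ (A ^ n) : ℝ) : ℂ)) n =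
      ((φ (Polynomial.aeval A p * A ^ n) : ℝ) : ℂ) := by
  induction p using Polynomial.induction_on' with
  | add p q hp hq =>
    intro n
    rw [Polynomial.map_add, map_add, LinearMap.add_apply, Pi.add_apply, hp, hq, map_add, add_mul,
      map_add, Complex.ofReal_add]
  | monomial k c =>
    intro n
    rw [Polynomial.map_monomial, Polynomial.aeval_monomial, Polynomial.aeval_monomial,
      ← Algebra.smul_def, ← Algebra.smul_def, smul_mul_assoc, ← pow_add, LinearMap.smul_apply,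
      Pi.smul_apply, shf_pow, map_smul, Nat.add_comm k n]
    simp

theorem growth {Q : Type} [NormedAddCommGroup Q] [NormedSpace ℝ Q] [FiniteDimensional ℝ Q]
    (A : Q →L[ℝ] Q) (p : Polynomial ℝ) (hp : p ≠ 0) (hA : Polynomial.aeval A p = 0) (r : ℝ)
    (hr : 0 < r) (hroots : ∀ μ : ℂ, Polynomial.aeval μ p = 0 → ‖μ‖ < r) :
    ∃ C : ℝ, ∀ n : ℕ, ‖A ^ n‖ ≤ C * r ^ n := by
  classical
  have hpm : p.map (algebraMap ℝ ℂ) ≠ 0 :=
    (Polynomial.map_ne_zero_iff (algebraMap ℝ ℂ).injective).mpr hp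
  have hlc : (p.map (algebraMap ℝ ℂ)).leadingCoeff ≠ 0 := Polynomial.leadingCoeff_ne_zero.mpr hpm
  have hsplit : p.map (algebraMap ℝ ℂ) = Polynomial.C (p.map (algebraMap ℝ ℂ)).leadingCoeff *
      ((p.map (algebraMap ℝ ℂ)).roots.map (fun μ => Polynomial.X - Polynomial.C μ)).prod :=
    (IsAlgClosed.splits _).eq_prod_roots
  have key : ∀ φ : (Q →L[ℝ] Q) →ₗ[ℝ] ℝ, ∃ C : ℝ, ∀ n : ℕ, |φ (A ^ n)| ≤ C * r ^ n := by
    intro φ
    obtain ⟨C, hC⟩ := seq_bound r hr (p.map (algebraMap ℝ ℂ)).roots (by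
      intro μ hμ
      apply hroots
      rw [Polynomial.mem_roots hpm, Polynomial.IsRoot.def, Polynomial.eval_map_algebraMap] at hμ
      exact hμ) (fun n => ((φ (A ^ n) : ℝ) : ℂ)) (by
      have h1 : (Polynomial.aeval shf (p.map (algebraMap ℝ ℂ)))
          (fun n => ((φ (A ^ n) : ℝ) : ℂ)) = 0 := by
        funext n
        rw [aeval_shf A φ p n, hA, zero_mul, map_zero]
        simp
      rw [hsplit, map_mul, Polynomial.aeval_C, Algebra.algebraMap_eq_smul_one, smul_mul_assoc,
        one_mul, LinearMap.smul_apply] at h1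
      exact (smul_eq_zero.mp h1).resolve_left hlc)
    refine ⟨C, fun n => ?_⟩
    have := hC n
    simpa using this
  let b := Module.finBasis ℝ (Q →L[ℝ] Q)
  choose C hC using fun i => key (b.coord i)
  refine ⟨∑ i, C i * ‖b i‖, fun n => ?_⟩
  calc ‖A ^ n‖ = ‖∑ i, b.coord i (A ^ n) • b i‖ := by
        congr 1
        exact (b.sum_repr (A ^ n)).symm
    _ ≤ ∑ i, ‖b.coord i (A ^ n) • b i‖ := norm_sum_le _ _
    _ ≤ ∑ i, (C i * r ^ n) * ‖b i‖ := by
        apply Finset.sum_le_sum
        intro i _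
        rw [norm_smul, Real.norm_eq_abs]
        exact mul_le_mul_of_nonneg_right (hC i n) (norm_nonneg _)
    _ = (∑ i, C i * ‖b i‖) * r ^ n := by
        rw [Finset.sum_mul]
        apply Finset.sum_congr rfl
        intro i _
        ring

end Pool.Agent.TH738.PX
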